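import Pool.Agent.Helper64.PC.Silv

/-!
# The product of Silver forcings is bounding
-/

namespace Pool.Agent.Helper17.PC

open Pool.Agent.Helper64.PC Set

theorem st_bound : ST_fusion → ∀ K : Type, Bounding (Sil K) := by
  intro hf K p b
  obtain ⟨q, hq, S, _, hS⟩ := hf K (fun _ => ℕ) (fun i c r => b.V i c r) p
    (fun i a q r h hr => b.mono i a q r h hr) (fun i q hq => b.total i q hq)
  refine ⟨q, hq, fun j => (S j).sup id, ?_⟩
  intro j c r hr hV
  obtain ⟨s, hs, a, ha, hVa⟩ := hS j r hr
  have : c = a := b.uniq j c a s (hs.trans (hr.trans hq)) (b.mono j c r s hV hs) hVa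
  rw [this]
  exact Finset.le_sup (f := id) ha

end Pool.Agent.Helper17.PC
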