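import Pool.Agent.Helper64.PC.Silv

/-!
# Fusion for the product of Silver forcings
-/

namespace Pool.Agent.Helper17.PC

open Pool.Agent.Helper64.PC Pool.Agent.Helper64.PC.Sil Cardinal Set

namespace Fusion

variable {K : Type}

/-- A state of the construction. -/
structure St (K : Type) (p : Sil K) where
  c : Sil K
  Z : Finset (K × ℕ)
  H : ℕ → Sil K
  le : c ≤ p
  free : ∀ x ∈ Z, c.val x.1 x.2 = none

theorem exists_en [Nonempty K] (p : Sil K) : ∃ e : ℕ → K, p.supp ⊆ range e := by
  have hc : p.supp.Countable := p.cnt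
  rcases p.supp.eq_empty_or_nonempty with h | h
  · exact ⟨fun _ => Classical.arbitrary K, by rw [h]; exact Set.empty_subset _⟩
  · obtain ⟨e, he⟩ := hc.exists_eq_range h
    exact ⟨e, he.le⟩

/-- An enumeration of the support. -/
noncomputable def en [Nonempty K] (p : Sil K) : ℕ → K := (exists_en p).choose

theorem en_spec [Nonempty K] (p : Sil K) : p.supp ⊆ range (en p) := (exists_en p).choose_spec

/-- The row which is treated at stage `i`. -/
noncomputable def row [Nonempty K] {p : Sil K} (i : ℕ) (s : St K p) : K :=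
  en (s.H i.unpair.1) i.unpair.2.unpair.1

/-- The step relation. -/
def Rel [Nonempty K] {T : ℕ → Type} (V : ∀ i, T i → Sil K → Prop) {p : Sil K}
    (i : ℕ) (s s' : St K p) : Prop :=
  (∃ S : Finset (T i), S.card ≤ 2 ^ s.Z.card ∧
    ∀ σ : K × ℕ → Bool, ∃ a ∈ S, V i a (s'.c.fill s.Z σ)) ∧
  s'.c ≤ s.c ∧ s.Z ⊆ s'.Z ∧ s'.Z.card ≤ s.Z.card + 1 ∧
  (∃ z, (row i s, z) ∉ s.Z ∧ (row i s, z) ∈ s'.Z) ∧
  s'.H (i + 1) = s'.c ∧ ∀ a ≤ i, s'.H a = s.H a

theorem exists_rel [Nonempty K] (hs : ST_step) {T : ℕ → Type} (V : ∀ i, T i → Sil K → Prop)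
    (p : Sil K) (hmono : ∀ i a q r, V i a q → r ≤ q → V i a r)
    (hd : ∀ i, ∀ q ≤ p, ∃ r ≤ q, ∃ a, V i a r) (i : ℕ) (s : St K p) :
    ∃ s', Rel V i s s' := by
  classical
  obtain ⟨q, hq, hfree, S, hS, hV⟩ :=
    hs K (T i) (V i) p s.c s.Z (hmono i) (hd i) s.le s.free
  have hinf : ({z | q.val (row i s) z = none} \
      ((s.Z.image Prod.snd : Finset ℕ) : Set ℕ)).Infinite :=
    (q.inf (row i s)).sdiff (Finset.finite_toSet _)
  obtain ⟨z, hz, hz'⟩ := hinf.nonempty
  have hzn : (row i s, z) ∉ s.Z := fun h => hz' (by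
    simp only [Finset.coe_image, Set.mem_image, Finset.mem_coe]
    exact ⟨_, h, rfl⟩)
  refine ⟨⟨q, insert (row i s, z) s.Z, Function.update s.H (i + 1) q, hq.trans s.le, ?_⟩,
    ⟨S, hS, hV⟩, hq, Finset.subset_insert _ _, Finset.card_insert_le _ _,
    ⟨z, hzn, Finset.mem_insert_self _ _⟩, by simp, ?_⟩
  · intro x hx
    rcases Finset.mem_insert.1 hx with rfl | hx
    · exact hz
    · exact hfree x hx
  · intro a ha
    have : a ≠ i + 1 := by omega
    simp [this]

end Fusion

open Fusion

theorem st_fusion : ST_step → ST_fusion := by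
  classical
  intro hs K T V p hmono hd
  rcases isEmpty_or_nonempty K with hK | hK
  · have heq : ∀ q r : Sil K, q = r := by
      intro q r
      apply Sil.ext
      funext ξ
      exact hK.elim ξ
    have h1 : ∀ i, ∃ a, V i a p := by
      intro i
      obtain ⟨r, _, a, ha⟩ := hd i p le_rfl
      exact ⟨a, by rwa [heq p r]⟩
    choose a ha using h1
    refine ⟨p, le_rfl, fun i => {a i}, fun i => ?_, fun i r _ => ⟨r, le_rfl, a i, by simp, ?_⟩⟩
    · simpa using Nat.one_le_two_pow
    · rw [heq r p]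
      exact ha i
  have hex : ∀ i (s : St K p), ∃ s', Rel V i s s' := exists_rel hs V p hmono hd
  choose nx hnx using hex
  let s0 : St K p := ⟨p, ∅, fun _ => p, le_rfl, by simp⟩
  let s : ℕ → St K p := fun n => Nat.rec s0 (fun i t => nx i t) n
  have hs0 : (s 0).c = p := rfl
  have hstep : ∀ i, Rel V i (s i) (s (i + 1)) := fun i => hnx i (s i)
  have hcard : ∀ i, (s i).Z.card ≤ i := by
    intro i
    induction i with
    | zero => exact le_of_eq rfl
    | succ i ih => exact ((hstep i).2.2.2.1).trans (by omega)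
  have hanti : ∀ i j, i ≤ j → (s j).c ≤ (s i).c := by
    intro i j h
    induction h with
    | refl => exact le_rfl
    | step h ih => exact ((hstep _).2.1).trans ih
  have hZmono : ∀ i j, i ≤ j → (s i).Z ⊆ (s j).Z := by
    intro i j h
    induction h with
    | refl => exact Finset.Subset.refl _
    | step h ih => exact ih.trans (hstep _).2.2.1
  have hH : ∀ i, ∀ a ≤ i, (s i).H a = (s a).c := by
    intro i
    induction i with
    | zero =>
      intro a ha
      have : a = 0 := by omega
      subst this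
      rfl
    | succ i ih =>
      intro a ha
      rcases Nat.lt_or_ge a (i + 1) with h | h
      · rw [(hstep i).2.2.2.2.2.2 a (by omega)]
        exact ih a (by omega)
      · have : a = i + 1 := by omega
        subst this
        exact (hstep i).2.2.2.2.2.1
  -- values persist
  have hval : ∀ i j, i ≤ j → ∀ ξ z, (s j).c.val ξ z = none → (s i).c.val ξ z = none := by
    intro i j hij ξ z h
    by_contra hne
    obtain ⟨b, hb⟩ := Option.ne_none_iff_exists'.1 hne
    have := hanti i j hij ξ z b hb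
    rw [h] at this
    cases this
  -- the limit
  let qv : K → ℕ → Option Bool := fun ξ z =>
    if h : ∃ i, (s i).c.val ξ z ≠ none then (s h.choose).c.val ξ z else none
  have hqv : ∀ ξ z b, qv ξ z = some b ↔ ∃ i, (s i).c.val ξ z = some b := by
    intro ξ z b
    constructor
    · intro h
      by_cases hx : ∃ i, (s i).c.val ξ z ≠ none
      · simp only [qv, dif_pos hx] at h
        exact ⟨_, h⟩
      · simp only [qv, dif_neg hx] at h
        cases h
    · rintro ⟨i, hi⟩
      have hx : ∃ i, (s i).c.val ξ z ≠ none := ⟨i, by rw [hi]; simp⟩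
      simp only [qv, dif_pos hx]
      obtain ⟨b', hb'⟩ := Option.ne_none_iff_exists'.1 hx.choose_spec
      rw [hb']
      have h1 := hanti _ _ (le_max_left i hx.choose) ξ z b hi
      have h2 := hanti _ _ (le_max_right i hx.choose) ξ z b' hb'
      rw [h1] at h2
      exact h2.symm
  have hqn : ∀ ξ z, (∀ i, (s i).c.val ξ z = none) → qv ξ z = none := by
    intro ξ z h
    by_contra hne
    obtain ⟨b, hb⟩ := Option.ne_none_iff_exists'.1 hne
    obtain ⟨i, hi⟩ := (hqv ξ z b).1 hb
    rw [h i] at hi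
    cases hi
  have hinf : ∀ ξ, {z | qv ξ z = none}.Infinite := by
    intro ξ
    by_cases hξ : ∃ a, ξ ∈ (s a).c.supp
    · obtain ⟨a, ha⟩ := hξ
      obtain ⟨b, hb⟩ := en_spec (s a).c ha
      have key : ∀ m, ∃ z, (ξ, z) ∉ (s (Nat.pair a (Nat.pair b m))).Z ∧
          (ξ, z) ∈ (s (Nat.pair a (Nat.pair b m) + 1)).Z := by
        intro m
        have hrow : row (Nat.pair a (Nat.pair b m)) (s (Nat.pair a (Nat.pair b m))) = ξ := by
          unfold row
          rw [Nat.unpair_pair]
          simp only [Nat.unpair_pair]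
          rw [hH _ a (Nat.left_le_pair _ _)]
          exact hb
        have := (hstep (Nat.pair a (Nat.pair b m))).2.2.2.2.1
        rwa [hrow] at this
      choose z hz hz' using key
      have hlt : ∀ m m', m < m' → z m ≠ z m' := by
        intro m m' h he
        have h1 : Nat.pair a (Nat.pair b m) + 1 ≤ Nat.pair a (Nat.pair b m') :=
          Nat.pair_lt_pair_right a (Nat.pair_lt_pair_right b h)
        exact hz m' (he ▸ hZmono _ _ h1 (hz' m))
      have hinj : Function.Injective z := by
        intro m m' he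
        rcases lt_trichotomy m m' with h | h | h
        · exact absurd he (hlt _ _ h)
        · exact h
        · exact absurd he.symm (hlt _ _ h)
      refine Set.infinite_of_injective_forall_mem hinj fun m => ?_
      apply hqn
      intro j
      have h1 := (s (max (Nat.pair a (Nat.pair b m) + 1) j)).free (ξ, z m)
        (hZmono _ _ (le_max_left _ _) (hz' m))
      exact hval _ _ (le_max_right _ _) _ _ h1
    · have : {z | qv ξ z = none} = Set.univ := by
        ext z
        refine ⟨fun _ => Set.mem_univ _, fun _ => ?_⟩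
        show qv ξ z = none
        apply hqn
        intro i
        by_contra h
        exact hξ ⟨i, z, h⟩
      rw [this]
      exact Set.infinite_univ
  have hcnt : {ξ | ∃ z, qv ξ z ≠ none}.Countable := by
    refine (Set.countable_iUnion (fun i => (s i).c.cnt)).mono ?_
    rintro ξ ⟨z, hz⟩
    obtain ⟨b, hb⟩ := Option.ne_none_iff_exists'.1 hz
    obtain ⟨i, hi⟩ := (hqv ξ z b).1 hb
    exact Set.mem_iUnion.2 ⟨i, z, by rw [hi]; simp⟩
  let q : Sil K := ⟨qv, hinf, hcnt⟩
  have hq : ∀ i, q ≤ (s i).c := fun i ξ z b hb => (hqv ξ z b).2 ⟨i, hb⟩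
  have hS : ∀ i, ∃ S : Finset (T i), S.card ≤ 2 ^ i ∧
      ∀ σ : K × ℕ → Bool, ∃ a ∈ S, V i a ((s (i + 1)).c.fill (s i).Z σ) := by
    intro i
    obtain ⟨S, hS, hV⟩ := (hstep i).1
    exact ⟨S, hS.trans (Nat.pow_le_pow_right (by norm_num) (hcard i)), hV⟩
  choose S hS hV using hS
  refine ⟨q, hq 0, S, hS, ?_⟩
  intro i r hr
  obtain ⟨a, ha, hVa⟩ := hV i (fun x => (r.val x.1 x.2).getD true)
  refine ⟨r.fill (s i).Z (fun x => (r.val x.1 x.2).getD true), ?_, a, ha,
    hmono i a _ _ hVa ?_⟩
  · intro ξ z b hb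
    by_cases hm : (ξ, z) ∈ (s i).Z
    · simp [fill, hm, hb]
    · simpa [fill, hm] using hb
  · intro ξ z b hb
    by_cases hm : (ξ, z) ∈ (s i).Z
    · simpa [fill, hm] using hb
    · simp only [fill, hm, if_false] at hb ⊢
      exact hr ξ z b (hq (i + 1) ξ z b hb)

end Pool.Agent.Helper17.PC
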