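import Pool.Agent.Helper64.PC.Frc

/-!
# There is a member of the ultrafilter on which a formula holds
-/

namespace Pool.Agent.Helper17.PC

open Pool.Agent.Helper64.PC Pool.Agent.Helper46.SP Pool.Agent.Helper94.SP Name

theorem st_large : ST_large := by
  intro P _ _ k v F ψ Ψ p hF hψ
  show Fo _ v p ↔ _
  rw [fo_ex]
  constructor
  · intro h
    refine fmem_dense fun q hq => ?_
    obtain ⟨r, hr, s, hs1, hs2⟩ := h q hq
    refine ⟨r, hr, ?_⟩
    have hrp : r ≤ p := hr.trans hq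
    have hs1' : FMem s (v F) r := hs1
    have hsub : ∀ x, ∀ t ≤ r, FMem x s t → FMem x omega t := fun x t ht hx =>
      hF.1 s r hrp hs1' x t ht hx
    have hm : FMem (rho fun i => {t | FMem (num i) s t}) (v F) r :=
      fmem_congr (feq_rho hsub) (feq_refl _ _) hs1'
    refine hF.2.1 _ Ψ r hrp hm ?_
    intro i t ht hfd
    refine Fd.dense fun u hu => ?_
    obtain ⟨u', hu', a, ha, hua⟩ := hfd u hu
    refine ⟨u', hu', ?_⟩
    have h1 : FMem (num i) s u' := fmem_mono ha hua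
    have hu'r : u' ≤ r := hu'.trans (hu.trans ht)
    have h2 : Fo (.all (.imp (.mem 0 1) ψ)) (Fin.cons s v : Fin (k + 1) → Name P) r := hs2
    rw [fo_all] at h2
    have h3 := h2 (num i)
    rw [fo_imp] at h3
    exact (hψ s i u' (hu'r.trans hrp)).1 (h3 u' hu'r h1)
  · intro h q hq
    refine ⟨q, le_rfl, rho Ψ, ?_⟩
    show Fo (.and (.mem 0 F.succ) (.all (.imp (.mem 0 1) ψ)))
      (Fin.cons (rho Ψ) v : Fin (k + 1) → Name P) q
    rw [fo_and]
    refine ⟨fmem_mono h hq, ?_⟩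
    rw [fo_all]
    intro x
    rw [fo_imp]
    intro t ht hx
    have hx' : FMem x (rho Ψ) t := hx
    refine fo_dense _ _ fun u hu => ?_
    obtain ⟨w, hw, i, he, hfd⟩ := (fmem_rho x Ψ t).1 hx' u hu
    refine ⟨w, hw, ?_⟩
    exact fo_cons_congr ψ _ (feq_symm he)
      ((hψ (rho Ψ) i w (hw.trans (hu.trans (ht.trans hq)))).2 hfd)

end Pool.Agent.Helper17.PC
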